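import Mathlib
import Pool.Agent.H839R2.Ode.Flow

/-!
The Winfree model: oscillator death of one group and locking of another one.
-/

open Set Filter Topology

namespace Pool.Agent.X98.Winfree

/-- `θ` solves the sinusoidal Winfree model on `[0, ∞)`. -/
def IsSolution {N : ℕ} (ω : Fin N → ℝ) (κ : ℝ) (θ : ℝ → Fin N → ℝ) : Prop :=
  ∀ t : ℝ, 0 ≤ t → ∀ i, HasDerivWithinAt (fun s => θ s i)
    (ω i - κ / N * (∑ j, (1 + Real.cos (θ t j))) * Real.sin (θ t i)) (Ici 0) t

/-- continuity induction -/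
lemma boot {P P' : ℝ → Prop} (hopen : ∀ t, 0 ≤ t → P' t → ∀ᶠ s in 𝓝 t, 0 ≤ s → P' s)
    (hclosed : ∀ t, 0 < t → (∀ s, 0 ≤ s → s < t → P s) → P t) (hPP : ∀ t, P' t → P t)
    (h0 : P' 0) (himp : ∀ T, 0 ≤ T → (∀ s ∈ Icc 0 T, P s) → P' T) : ∀ t, 0 ≤ t → P' t := by
  by_contra hcon
  push Not at hcon
  obtain ⟨t1, ht1, hn1⟩ := hcon
  set Z : Set ℝ := {t | 0 ≤ t ∧ ¬ P' t} with hZ
  have hZne : Z.Nonempty := ⟨t1, ht1, hn1⟩
  have hbdd : BddBelow Z := ⟨0, fun t ht => ht.1⟩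
  set τ := sInf Z with hτ
  have hτ0 : 0 ≤ τ := le_csInf hZne fun t ht => ht.1
  have hlt : ∀ s, 0 ≤ s → s < τ → P' s := by
    intro s hs hsτ
    by_contra h
    exact absurd (csInf_le hbdd (show s ∈ Z from ⟨hs, h⟩)) (not_le.mpr hsτ)
  have hτP' : ¬ P' τ := by
    intro h
    have hev := hopen τ hτ0 h
    rw [Metric.eventually_nhds_iff] at hev
    obtain ⟨ε, hε, hev⟩ := hev
    obtain ⟨z, hz, hzlt⟩ := exists_lt_of_csInf_lt hZne (show sInf Z < τ + ε by linarith)
    have hzτ : τ ≤ z := csInf_le hbdd hz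
    refine hz.2 (hev ?_ hz.1)
    rw [Real.dist_eq, abs_lt]
    constructor <;> linarith
  have hτpos : 0 < τ := by
    rcases hτ0.lt_or_eq with h | h
    · exact h
    · rw [← h] at hτP'; exact absurd h0 hτP'
  have hPτ : P τ := hclosed τ hτpos fun s hs hsτ => hPP s (hlt s hs hsτ)
  refine hτP' (himp τ hτ0 fun s hs => ?_)
  rcases hs.2.lt_or_eq with h | h
  · exact hPP s (hlt s hs.1 h)
  · rw [h]; exact hPτ

lemma sin_rem {x δ : ℝ} (hδ : |δ| ≤ 1 / 100) :
    |Real.sin (x + δ) - Real.sin x - Real.cos x * δ| ≤ δ ^ 2 := by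
  have h1 : |Real.sin δ - δ| ≤ |δ| ^ 3 / 4 := by
    rcases lt_trichotomy δ 0 with h | h | h
    · have a : 0 < -δ := by linarith
      have b : -δ ≤ 1 := by rw [abs_of_neg h] at hδ; linarith
      have c := Real.sin_gt_sub_cube a
      have d := Real.sin_lt a
      rw [Real.sin_neg] at c d
      rw [abs_of_neg h, abs_le]
      constructor <;> nlinarith
    · subst h; simp
    · have b : δ ≤ 1 := by rw [abs_of_pos h] at hδ; linarith
      have c := Real.sin_gt_sub_cube h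
      have d := Real.sin_lt h
      rw [abs_of_pos h, abs_le]
      constructor <;> nlinarith
  have h2 : |Real.cos δ - 1| ≤ δ ^ 2 / 2 := by
    have := Real.one_sub_sq_div_two_le_cos (x := δ)
    have := Real.cos_le_one δ
    rw [abs_le]; constructor <;> linarith
  have e : Real.sin (x + δ) - Real.sin x - Real.cos x * δ =
      Real.sin x * (Real.cos δ - 1) + Real.cos x * (Real.sin δ - δ) := by
    rw [Real.sin_add]; ring
  rw [e]
  have h3 := Real.abs_sin_le_one x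
  have h4 := Real.abs_cos_le_one x
  have h5 : |δ| ^ 3 / 4 ≤ δ ^ 2 / 2 := by
    rw [← sq_abs δ]
    have := abs_nonneg δ
    nlinarith [pow_nonneg (abs_nonneg δ) 2, sq_nonneg (|δ|)]
  calc |Real.sin x * (Real.cos δ - 1) + Real.cos x * (Real.sin δ - δ)|
      ≤ |Real.sin x * (Real.cos δ - 1)| + |Real.cos x * (Real.sin δ - δ)| := abs_add_le _ _
    _ = |Real.sin x| * |Real.cos δ - 1| + |Real.cos x| * |Real.sin δ - δ| := by
        rw [abs_mul, abs_mul]
    _ ≤ 1 * (δ ^ 2 / 2) + 1 * (|δ| ^ 3 / 4) := by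
        apply add_le_add
        · exact mul_le_mul h3 h2 (abs_nonneg _) zero_le_one
        · exact mul_le_mul h4 h1 (abs_nonneg _) zero_le_one
    _ ≤ δ ^ 2 := by linarith

lemma core {x δ h e β c ρ ωi ωj : ℝ} (hδ : |δ| ≤ 1 / 100) (hh : h = 1 + β + c * Real.cos x + e)
    (he : |e| ≤ β / 200 + c / 100 + ρ) (hsum : β + c + ρ = 1) (hβ : 0 ≤ β) (hρ : 0 ≤ ρ)
    (hc : 9 / 20 ≤ c) (h0 : 0 ≤ h) (h2 : h ≤ 2)
    (hωi : |ωi - 1| ≤ 1 / 10 ^ 7) (hωj : |ωj - 1| ≤ 1 / 10 ^ 7) :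
    |(ωi - ωj) - 1 / 100 * h * (Real.sin (x + δ) - Real.sin x)
      + 1 / 100 * ((1 + β) * Real.cos x + c / 2 * Real.cos (2 * x))
        * (ωj - 1 / 100 * h * Real.sin x) * δ + 1 / 100 * δ * (c / 2)|
      ≤ 2 / 10 ^ 7 + 1 / 100 * |δ| * (9 / 100 + ρ) := by
  set r := Real.sin (x + δ) - Real.sin x - Real.cos x * δ with hr
  have hrb : |r| ≤ δ ^ 2 := sin_rem hδ
  set w := (1 + β) * Real.cos x + c / 2 * Real.cos (2 * x) with hw
  set z := ωj - 1 - 1 / 100 * h * Real.sin x with hz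
  have e1 : (ωi - ωj) - 1 / 100 * h * (Real.sin (x + δ) - Real.sin x)
      + 1 / 100 * w * (ωj - 1 / 100 * h * Real.sin x) * δ + 1 / 100 * δ * (c / 2)
      = (ωi - ωj) - 1 / 100 * (δ * (e * Real.cos x)) - 1 / 100 * (h * r) + 1 / 100 * (w * z * δ) := by
    have a : Real.sin (x + δ) - Real.sin x = Real.cos x * δ + r := by rw [hr]; ring
    rw [a, hz, hw, Real.cos_two_mul, hh]
    ring
  rw [e1]
  have hs := Real.abs_sin_le_one x
  have hcx := Real.abs_cos_le_one x
  have hc2 := Real.abs_cos_le_one (2 * x)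
  have b1 : |ωi - ωj| ≤ 2 / 10 ^ 7 := by
    have : ωi - ωj = (ωi - 1) - (ωj - 1) := by ring
    rw [this]
    refine (abs_sub _ _).trans ?_
    linarith
  have b2 : |δ * (e * Real.cos x)| ≤ |δ| * |e| := by
    rw [abs_mul, abs_mul]
    exact mul_le_mul_of_nonneg_left (mul_le_of_le_one_right (abs_nonneg _) hcx) (abs_nonneg _)
  have b3 : |h * r| ≤ |δ| * (2 / 100) := by
    rw [abs_mul, abs_of_nonneg h0]
    have : |r| ≤ |δ| * |δ| := by rw [abs_mul_abs_self, ← sq]; exact hrb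
    have h3 : |r| ≤ |δ| * (1 / 100) := this.trans (mul_le_mul_of_nonneg_left hδ (abs_nonneg _))
    have h4 : 0 ≤ |r| := abs_nonneg _
    nlinarith [abs_nonneg δ]
  have b4 : |w| ≤ 5 / 2 := by
    rw [hw]
    refine (abs_add_le _ _).trans ?_
    rw [abs_mul, abs_mul, abs_of_nonneg (show 0 ≤ 1 + β by linarith),
      abs_of_nonneg (show 0 ≤ c / 2 by linarith)]
    have h3 : (1 + β) * |Real.cos x| ≤ 1 + β := mul_le_of_le_one_right (by linarith) hcx
    have h4 : c / 2 * |Real.cos (2 * x)| ≤ c / 2 := mul_le_of_le_one_right (by linarith) hc2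
    linarith
  have b5 : |z| ≤ 1 / 10 ^ 7 + 2 / 100 := by
    rw [hz]
    refine (abs_sub _ _).trans ?_
    have : |1 / 100 * h * Real.sin x| ≤ 2 / 100 := by
      rw [abs_mul, abs_of_nonneg (show 0 ≤ 1 / 100 * h by linarith)]
      have : 1 / 100 * h * |Real.sin x| ≤ 1 / 100 * h := mul_le_of_le_one_right (by linarith) hs
      linarith
    linarith
  have b6 : |w * z * δ| ≤ |δ| * (5 / 2 * (1 / 10 ^ 7 + 2 / 100)) := by
    rw [abs_mul, abs_mul, mul_comm]
    refine mul_le_mul_of_nonneg_left ?_ (abs_nonneg _)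
    exact mul_le_mul b4 b5 (abs_nonneg _) (by norm_num)
  have t1 : |(ωi - ωj) - 1 / 100 * (δ * (e * Real.cos x)) - 1 / 100 * (h * r) + 1 / 100 * (w * z * δ)|
      ≤ |ωi - ωj| + 1 / 100 * |δ * (e * Real.cos x)| + 1 / 100 * |h * r| + 1 / 100 * |w * z * δ| := by
    have p1 := neg_abs_le (ωi - ωj)
    have p2 := le_abs_self (ωi - ωj)
    have q1 := neg_abs_le (δ * (e * Real.cos x))
    have q2 := le_abs_self (δ * (e * Real.cos x))
    have r1 := neg_abs_le (h * r)
    have r2 := le_abs_self (h * r)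
    have s1 := neg_abs_le (w * z * δ)
    have s2 := le_abs_self (w * z * δ)
    rw [abs_le]; constructor <;> linarith
  refine t1.trans ?_
  have hd := abs_nonneg δ
  have f1 : |δ| * |e| ≤ |δ| * (β / 200 + c / 100 + ρ) := mul_le_mul_of_nonneg_left he hd
  have f2 : β / 200 + c / 100 ≤ 1 / 100 := by linarith
  have f3 : |δ| * (β / 200 + c / 100 + ρ) ≤ |δ| * (1 / 100 + ρ) :=
    mul_le_mul_of_nonneg_left (by linarith) hd
  have f4 : |δ| * (5 / 2 * (1 / 10 ^ 7 + 2 / 100)) = |δ| * (5 / 2 * (1 / 10 ^ 7)) + |δ| * (5 / 100) := by ring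
  have f5 : |δ| * (5 / 2 * (1 / 10 ^ 7)) ≤ |δ| * (0 + 1/1000) := mul_le_mul_of_nonneg_left (by norm_num) hd
  have f6 : |δ| * (1 / 100 + ρ) = |δ| * (1 / 100) + |δ| * ρ := by ring
  have f7 : |δ| * (9 / 100 + ρ) = |δ| * (9 / 100) + |δ| * ρ := by ring
  have goal : 2 / 10 ^ 7 + 1 / 100 * |δ| * (9 / 100 + ρ)
      = 2 / 10 ^ 7 + 1 / 100 * (|δ| * (9 / 100 + ρ)) := by ring
  rw [goal, f7]
  linarith

lemma stay {f f' : ℝ → ℝ} {T U : ℝ} (hT : 0 ≤ T)
    (hd : ∀ t, 0 ≤ t → HasDerivWithinAt f (f' t) (Ici 0) t) (h0 : f 0 ≤ U)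
    (hb : ∀ t ∈ Ico 0 T, f t = U → f' t < 0) : f T ≤ U := by
  refine image_le_of_deriv_right_lt_deriv_boundary (f := f) (f' := f') (a := 0) (b := T)
    (B := fun _ => U) (B' := fun _ => 0) ?_ ?_ h0 (fun x => hasDerivAt_const x U) hb ⟨hT, le_rfl⟩
  · exact fun t ht => (hd t ht.1).continuousWithinAt.mono Icc_subset_Ici_self
  · exact fun t ht => (hd t ht.1).mono (Ici_subset_Ici.mpr ht.1)

lemma lim_le {g : ℝ → ℝ} {t c : ℝ} (hg : ContinuousWithinAt g (Ici 0) t) (ht : 0 < t)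
    (h : ∀ s, 0 ≤ s → s < t → g s ≤ c) : g t ≤ c := by
  have h1 : Tendsto g (𝓝[Ico 0 t] t) (𝓝 (g t)) := hg.mono Ico_subset_Ici_self
  have h2 : (𝓝[Ico 0 t] t).NeBot := by
    rw [← mem_closure_iff_nhdsWithin_neBot, closure_Ico ht.ne]
    exact ⟨ht.le, le_rfl⟩
  exact le_of_tendsto h1 (eventually_nhdsWithin_of_forall fun s hs => h s hs.1 hs.2)

open Finset in
lemma mean_field {N : ℕ} (hN : 0 < N) (v : Fin N → ℝ) (x : ℝ) {B C : Finset (Fin N)}
    (hBC : Disjoint B C) (hB : ∀ b ∈ B, |v b| ≤ 1 / 10) (hC : ∀ i ∈ C, |v i - x| ≤ 1 / 100) :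
    |(∑ j, (1 + Real.cos (v j))) / N - (1 + (B.card : ℝ) / N + (C.card : ℝ) / N * Real.cos x)|
      ≤ (B.card : ℝ) / N / 200 + (C.card : ℝ) / N / 100 + (1 - (B.card : ℝ) / N - (C.card : ℝ) / N) := by
  classical
  have hN' : (0 : ℝ) < N := by exact_mod_cast hN
  set O : Finset (Fin N) := univ \ (B ∪ C) with hO
  have hcard : (O.card : ℝ) = N - B.card - C.card := by
    have h1 : O.card + (B ∪ C).card = N := by
      rw [hO, Finset.card_sdiff_add_card_eq_card (subset_univ _), Finset.card_univ, Fintype.card_fin]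
    rw [Finset.card_union_of_disjoint hBC] at h1
    have h2 : (O.card : ℝ) + (B.card + C.card) = N := by exact_mod_cast h1
    linarith
  have hsum : ∑ j, Real.cos (v j) = ∑ j ∈ B, Real.cos (v j) + ∑ j ∈ C, Real.cos (v j)
      + ∑ j ∈ O, Real.cos (v j) := by
    rw [← Finset.sum_union hBC, add_comm, hO, Finset.sum_sdiff (subset_univ _)]
  have e1 : (∑ j, (1 + Real.cos (v j))) / N - (1 + (B.card : ℝ) / N + (C.card : ℝ) / N * Real.cos x)
      = (∑ j ∈ B, (Real.cos (v j) - 1) + ∑ j ∈ C, (Real.cos (v j) - Real.cos x)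
        + ∑ j ∈ O, Real.cos (v j)) / N := by
    rw [Finset.sum_add_distrib, hsum, Finset.sum_sub_distrib, Finset.sum_sub_distrib]
    simp only [Finset.sum_const, Finset.card_univ, Fintype.card_fin, nsmul_eq_mul, mul_one]
    field_simp
    ring
  have s1 : |∑ j ∈ B, (Real.cos (v j) - 1)| ≤ B.card * (1 / 200) := by
    refine (Finset.abs_sum_le_sum_abs _ _).trans ?_
    rw [← nsmul_eq_mul]
    refine Finset.sum_le_card_nsmul _ _ _ fun j hj => ?_
    have h1 := Real.one_sub_sq_div_two_le_cos (x := v j)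
    have h2 := Real.cos_le_one (v j)
    have h3 : v j ^ 2 ≤ (1 / 10) ^ 2 := sq_le_sq' (by linarith [(abs_le.mp (hB j hj)).1]) (abs_le.mp (hB j hj)).2
    rw [abs_le]; constructor <;> linarith
  have s2 : |∑ j ∈ C, (Real.cos (v j) - Real.cos x)| ≤ C.card * (1 / 100) := by
    refine (Finset.abs_sum_le_sum_abs _ _).trans ?_
    rw [← nsmul_eq_mul]
    exact Finset.sum_le_card_nsmul _ _ _ fun j hj => (Real.abs_cos_sub_cos_le _ _).trans (hC j hj)
  have s3 : |∑ j ∈ O, Real.cos (v j)| ≤ O.card * 1 := by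
    refine (Finset.abs_sum_le_sum_abs _ _).trans ?_
    rw [← nsmul_eq_mul]
    exact Finset.sum_le_card_nsmul _ _ _ fun j hj => Real.abs_cos_le_one _
  rw [e1, abs_div, abs_of_pos hN', div_le_iff₀ hN']
  have e2 : ((B.card : ℝ) / N / 200 + (C.card : ℝ) / N / 100 + (1 - (B.card : ℝ) / N - (C.card : ℝ) / N)) * N
      = B.card * (1 / 200) + C.card * (1 / 100) + O.card * 1 := by
    rw [hcard]; field_simp
  rw [e2]
  refine (abs_add_le _ _).trans (add_le_add ?_ s3)
  exact (abs_add_le _ _).trans (add_le_add s1 s2)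

lemma h_bounds {N : ℕ} (hN : 0 < N) (v : Fin N → ℝ) :
    0 ≤ (∑ j, (1 + Real.cos (v j))) / N ∧ (∑ j, (1 + Real.cos (v j))) / N ≤ 2 := by
  have hN' : (0 : ℝ) < N := by exact_mod_cast hN
  constructor
  · apply div_nonneg _ hN'.le
    exact Finset.sum_nonneg fun j _ => by linarith [Real.neg_one_le_cos (v j)]
  · rw [div_le_iff₀ hN']
    have : ∑ j : Fin N, (1 + Real.cos (v j)) ≤ ∑ j : Fin N, (2 : ℝ) :=
      Finset.sum_le_sum fun j _ => by linarith [Real.cos_le_one (v j)]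
    refine this.trans (le_of_eq ?_)
    simp [mul_comm]

section dyn

variable {N : ℕ} {ω : Fin N → ℝ} {θ : ℝ → Fin N → ℝ}

/-- the mean field -/
noncomputable def hh (θ : ℝ → Fin N → ℝ) (t : ℝ) : ℝ := (∑ j, (1 + Real.cos (θ t j))) / N

lemma deriv_hh (hsol : IsSolution ω (1 / 100) θ) {t : ℝ} (ht : 0 ≤ t) (i : Fin N) :
    HasDerivWithinAt (fun s => θ s i) (ω i - 1 / 100 * hh θ t * Real.sin (θ t i)) (Ici 0) t := by
  have := hsol t ht i
  convert this using 1
  unfold hh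
  ring

lemma part_B (hN : 0 < N) (hsol : IsSolution ω (1 / 100) θ) (h0 : θ 0 = 0)
    {B : Finset (Fin N)} (hBc : 9 / 20 * (N : ℝ) ≤ B.card) (hωB : ∀ i ∈ B, |ω i| ≤ 1 / 10 ^ 7)
    {T : ℝ} (hT : 0 ≤ T) (hP : ∀ s ∈ Icc 0 T, ∀ b ∈ B, |θ s b| ≤ 1 / 10) :
    ∀ b ∈ B, |θ T b| < 1 / 10 := by
  have hN' : (0 : ℝ) < N := by exact_mod_cast hN
  have hlow : ∀ s ∈ Icc 0 T, 9 / 20 ≤ hh θ s := by
    intro s hs
    unfold hh
    rw [le_div_iff₀ hN']
    refine hBc.trans ?_
    have h1 : (B.card : ℝ) = ∑ j ∈ B, (1 : ℝ) := by simp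
    rw [h1]
    calc ∑ j ∈ B, (1 : ℝ) ≤ ∑ j ∈ B, (1 + Real.cos (θ s j)) := by
          refine Finset.sum_le_sum fun j hj => ?_
          have h2 := hP s hs j hj
          have h3 : 0 ≤ Real.cos (θ s j) := by
            have := Real.one_sub_sq_div_two_le_cos (x := θ s j)
            have h4 : θ s j ^ 2 ≤ (1 / 10) ^ 2 := sq_le_sq' (by linarith [(abs_le.mp h2).1]) (abs_le.mp h2).2
            linarith
          linarith
      _ ≤ ∑ j, (1 + Real.cos (θ s j)) :=
          Finset.sum_le_sum_of_subset_of_nonneg (Finset.subset_univ _)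
            fun j _ _ => by linarith [Real.neg_one_le_cos (θ s j)]
  have hsin : 49 / 1000 < Real.sin (1 / 20) := by
    have := Real.sin_gt_sub_cube (show (0 : ℝ) < 1 / 20 by norm_num)
    norm_num at this ⊢
    linarith
  intro b hb
  have hω := abs_le.mp (hωB b hb)
  have up : θ T b ≤ 1 / 20 := by
    refine stay (f := fun s => θ s b) hT (fun t ht => deriv_hh hsol ht b) (by simp [h0]) ?_
    intro t ht hU
    have hU' : θ t b = 1 / 20 := hU
    have h1 := hlow t ⟨ht.1, ht.2.le⟩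
    rw [hU']
    have h2 : 9 / 20 * (49 / 1000) ≤ hh θ t * Real.sin (1 / 20) :=
      mul_le_mul h1 hsin.le (by norm_num) (by linarith)
    linarith
  have down : -θ T b ≤ 1 / 20 := by
    refine stay (f := fun s => -θ s b) hT (fun t ht => (deriv_hh hsol ht b).neg) (by simp [h0]) ?_
    intro t ht hU
    have hU' : θ t b = -(1 / 20) := by have : -θ t b = 1 / 20 := hU; linarith
    have h1 := hlow t ⟨ht.1, ht.2.le⟩
    rw [hU', Real.sin_neg]
    have h2 : 9 / 20 * (49 / 1000) ≤ hh θ t * Real.sin (1 / 20) :=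
      mul_le_mul h1 hsin.le (by norm_num) (by linarith)
    linarith
  rw [abs_lt]; constructor <;> linarith

lemma part_C (hN : 0 < N) (hsol : IsSolution ω (1 / 100) θ) (h0 : θ 0 = 0)
    {B C : Finset (Fin N)} (hBC : Disjoint B C) (hBc : 9 / 20 * (N : ℝ) ≤ B.card)
    (hCc : 9 / 20 * (N : ℝ) ≤ C.card) (hωC : ∀ i ∈ C, |ω i - 1| ≤ 1 / 10 ^ 7)
    {T : ℝ} (hT : 0 ≤ T) (hP : ∀ s ∈ Icc 0 T, ∀ b ∈ B, |θ s b| ≤ 1 / 10)
    (hP' : ∀ s ∈ Icc 0 T, ∀ i ∈ C, ∀ j ∈ C, |θ s i - θ s j| ≤ 1 / 100) :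
    ∀ i ∈ C, ∀ j ∈ C, |θ T i - θ T j| < 1 / 100 := by
  have hN' : (0 : ℝ) < N := by exact_mod_cast hN
  set β : ℝ := (B.card : ℝ) / N with hβ
  set c : ℝ := (C.card : ℝ) / N with hc
  have hβ1 : 9 / 20 ≤ β := by rw [hβ, le_div_iff₀ hN']; exact hBc
  have hc1 : 9 / 20 ≤ c := by rw [hc, le_div_iff₀ hN']; exact hCc
  have hρ : 0 ≤ 1 - β - c := by
    have h1 : B.card + C.card ≤ N := by
      rw [← Finset.card_union_of_disjoint hBC]
      simpa using Finset.card_le_univ (B ∪ C)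
    have h2 : (B.card : ℝ) + C.card ≤ N := by exact_mod_cast h1
    have h3 : β + c ≤ 1 := by
      rw [hβ, hc, ← add_div, div_le_one hN']; exact h2
    linarith
  intro i hi j hj
  set w : ℝ → ℝ := fun x => (1 + β) * Real.sin x + c / 4 * Real.sin (2 * x) with hw
  set w' : ℝ → ℝ := fun x => (1 + β) * Real.cos x + c / 2 * Real.cos (2 * x) with hw'
  have hwd : ∀ x, HasDerivAt w (w' x) x := by
    intro x
    have h1 := (Real.hasDerivAt_sin x).const_mul (1 + β)
    have h2 : HasDerivAt (fun x : ℝ => Real.sin (2 * x)) (Real.cos (2 * x) * 2) x := by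
      have := (hasDerivAt_id x).const_mul 2
      simp only [id_eq, mul_one] at this
      exact this.sin
    have h3 := h1.fun_add (h2.const_mul (c / 4))
    refine h3.congr_deriv ?_
    simp only [hw']; ring
  have hwb : ∀ x, |1 / 100 * w x| ≤ 1 / 40 := by
    intro x
    rw [abs_mul, abs_of_pos (show (0 : ℝ) < 1 / 100 by norm_num)]
    have h1 : |w x| ≤ (1 + β) * 1 + c / 4 * 1 := by
      rw [hw]
      refine (abs_add_le _ _).trans ?_
      rw [abs_mul, abs_mul, abs_of_nonneg (show 0 ≤ 1 + β by linarith),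
        abs_of_nonneg (show 0 ≤ c / 4 by linarith)]
      apply add_le_add
      · exact mul_le_mul_of_nonneg_left (Real.abs_sin_le_one _) (by linarith)
      · exact mul_le_mul_of_nonneg_left (Real.abs_sin_le_one _) (by linarith)
    linarith
  set g : ℝ → ℝ := fun t => (ω i - 1 / 100 * hh θ t * Real.sin (θ t i))
      - (ω j - 1 / 100 * hh θ t * Real.sin (θ t j))
      + (θ t i - θ t j) * (1 / 100 * (w' (θ t j) * (ω j - 1 / 100 * hh θ t * Real.sin (θ t j)))) with hg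
  have hfd : ∀ t, 0 ≤ t → HasDerivWithinAt (fun s => (θ s i - θ s j) * Real.exp (1 / 100 * w (θ s j)))
      (g t * Real.exp (1 / 100 * w (θ t j))) (Ici 0) t := by
    intro t ht
    have h1 := deriv_hh hsol ht i
    have h2 := deriv_hh hsol ht j
    have h3 := (((hwd (θ t j)).comp_hasDerivWithinAt t h2).const_mul (1 / 100)).exp
    have h4 := (h1.fun_sub h2).fun_mul h3
    refine h4.congr_deriv ?_
    simp only [hg, Function.comp_apply]
    ring
  have hgb : ∀ t ∈ Icc 0 T, |g t + 1 / 100 * (θ t i - θ t j) * (c / 2)|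
      ≤ 2 / 10 ^ 7 + 1 / 100 * |θ t i - θ t j| * (9 / 100 + (1 - β - c)) := by
    intro t ht
    have hm := mean_field hN (θ t) (θ t j) hBC (hP t ht) (fun i' hi' => hP' t ht i' hi' j hj)
    obtain ⟨b0, b2⟩ := h_bounds hN (θ t)
    have := core (x := θ t j) (δ := θ t i - θ t j) (h := hh θ t)
      (e := hh θ t - (1 + β + c * Real.cos (θ t j))) (β := β) (c := c) (ρ := 1 - β - c)
      (ωi := ω i) (ωj := ω j) (hP' t ht i hi j hj) (by ring) hm (by ring) (by linarith) hρ hc1 b0 b2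
      (hωC i hi) (hωC j hj)
    have e1 : θ t j + (θ t i - θ t j) = θ t i := by ring
    rw [e1] at this
    have e2 : g t + 1 / 100 * (θ t i - θ t j) * (c / 2) =
        ω i - ω j - 1 / 100 * hh θ t * (Real.sin (θ t i) - Real.sin (θ t j)) +
        1 / 100 * ((1 + β) * Real.cos (θ t j) + c / 2 * Real.cos (2 * θ t j)) *
            (ω j - 1 / 100 * hh θ t * Real.sin (θ t j)) * (θ t i - θ t j) +
        1 / 100 * (θ t i - θ t j) * (c / 2) := by
      simp only [hg, hw']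
      ring
    rw [e2]
    exact this
  set U : ℝ := 1 / 200 * Real.exp (1 / 40) with hU
  have hexp : Real.exp (1 / 20) < 2 := by
    have h1 : Real.exp (1 / 20) ≤ Real.exp (1 / 2) := Real.exp_le_exp.mpr (by norm_num)
    have h2 : Real.exp (1 / 2) < 2 := by
      have h3 : Real.exp (1 / 2) ^ 2 = Real.exp 1 := by rw [← Real.exp_nat_mul]; norm_num
      have h4 := Real.exp_one_lt_d9
      nlinarith [Real.exp_pos (1 / 2)]
    linarith
  -- from a bound of f to a bound of δ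
  have back : ∀ (δ x : ℝ), δ * Real.exp (1 / 100 * w x) ≤ U → δ < 1 / 100 := by
    intro δ x h
    by_contra hcon
    rw [not_lt] at hcon
    have h1 : Real.exp (-(1 / 40)) ≤ Real.exp (1 / 100 * w x) :=
      Real.exp_le_exp.mpr (by linarith [(abs_le.mp (hwb x)).1])
    have h2 : 1 / 100 * Real.exp (-(1 / 40)) ≤ U :=
      (mul_le_mul hcon h1 (Real.exp_pos _).le (by linarith)).trans h
    have h3 : Real.exp (-(1 / 40)) * Real.exp (1 / 40) = 1 := by rw [← Real.exp_add]; norm_num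
    have h4 : Real.exp (1 / 40) * Real.exp (1 / 40) = Real.exp (1 / 20) := by
      rw [← Real.exp_add]; norm_num
    have h5 := Real.exp_pos (1 / 40)
    have h6 := Real.exp_pos (-(1 / 40))
    have h7 : 1 / 100 * (Real.exp (-(1 / 40)) * Real.exp (1 / 40)) ≤ 1 / 200 * (Real.exp (1 / 40) * Real.exp (1 / 40)) := by
      have := mul_le_mul_of_nonneg_right h2 h5.le
      rw [hU] at this
      linarith
    rw [h3, h4] at h7
    linarith
  have thr : ∀ (δ x : ℝ), δ * Real.exp (1 / 100 * w x) = U → 1 / 200 ≤ δ := by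
    intro δ x h
    have h1 : Real.exp (1 / 100 * w x) ≤ Real.exp (1 / 40) :=
      Real.exp_le_exp.mpr (abs_le.mp (hwb x)).2
    have h2 := Real.exp_pos (1 / 100 * w x)
    have hU0 : 0 < U := by rw [hU]; positivity
    have hδ : 0 < δ := by
      by_contra hcon
      rw [not_lt] at hcon
      have : δ * Real.exp (1 / 100 * w x) ≤ 0 := mul_nonpos_of_nonpos_of_nonneg hcon h2.le
      linarith
    have h3 : U ≤ δ * Real.exp (1 / 40) := by
      rw [← h]; exact mul_le_mul_of_nonneg_left h1 hδ.le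
    rw [hU] at h3
    exact le_of_mul_le_mul_right h3 (Real.exp_pos _)
  have up : (θ T i - θ T j) * Real.exp (1 / 100 * w (θ T j)) ≤ U := by
    refine stay (f := fun s => (θ s i - θ s j) * Real.exp (1 / 100 * w (θ s j))) hT hfd ?_ ?_
    · simp only [h0, Pi.zero_apply, sub_zero, zero_mul]; rw [hU]; positivity
    · intro t ht hUt
      have h1 := thr _ _ hUt
      have h2 := (abs_le.mp (hgb t ⟨ht.1, ht.2.le⟩)).2
      rw [abs_of_pos (show 0 < θ t i - θ t j by linarith)] at h2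
      refine mul_neg_of_neg_of_pos ?_ (Real.exp_pos _)
      nlinarith
  have down : -(θ T i - θ T j) * Real.exp (1 / 100 * w (θ T j)) ≤ U := by
    have hfd' : ∀ t, 0 ≤ t → HasDerivWithinAt
        (fun s => -(θ s i - θ s j) * Real.exp (1 / 100 * w (θ s j)))
        (-(g t * Real.exp (1 / 100 * w (θ t j)))) (Ici 0) t := by
      intro t ht
      have := (hfd t ht).fun_neg
      simpa only [neg_mul] using this
    refine stay (f := fun s => -(θ s i - θ s j) * Real.exp (1 / 100 * w (θ s j))) hT hfd' ?_ ?_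
    · simp only [h0, Pi.zero_apply, sub_zero, neg_zero, zero_mul]; rw [hU]; positivity
    · intro t ht hUt
      have h1 := thr _ _ hUt
      have h2 := (abs_le.mp (hgb t ⟨ht.1, ht.2.le⟩)).1
      rw [abs_of_neg (show θ t i - θ t j < 0 by linarith)] at h2
      have h3 : 0 < g t := by nlinarith
      have := mul_pos h3 (Real.exp_pos (1 / 100 * w (θ t j)))
      linarith
  have a := back _ _ up
  have b := back _ _ down
  rw [abs_lt]; constructor <;> linarith

theorem confined (hN : 0 < N) (hsol : IsSolution ω (1 / 100) θ) (h0 : θ 0 = 0)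
    {B C : Finset (Fin N)} (hBC : Disjoint B C) (hBc : 9 / 20 * (N : ℝ) ≤ B.card)
    (hCc : 9 / 20 * (N : ℝ) ≤ C.card) (hωB : ∀ i ∈ B, |ω i| ≤ 1 / 10 ^ 7)
    (hωC : ∀ i ∈ C, |ω i - 1| ≤ 1 / 10 ^ 7) :
    ∀ t, 0 ≤ t → (∀ b ∈ B, |θ t b| < 1 / 10) ∧ ∀ i ∈ C, ∀ j ∈ C, |θ t i - θ t j| < 1 / 100 := by
  have hcont : ∀ t, 0 ≤ t → ∀ i, ContinuousWithinAt (fun s => θ s i) (Ici 0) t :=
    fun t ht i => (hsol t ht i).continuousWithinAt
  refine boot (P := fun t => (∀ b ∈ B, |θ t b| ≤ 1 / 10) ∧ ∀ i ∈ C, ∀ j ∈ C, |θ t i - θ t j| ≤ 1 / 100)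
    ?_ ?_ ?_ ?_ ?_
  · intro t ht ⟨h1, h2⟩
    suffices hs : ∀ᶠ s in 𝓝[Ici 0] t, (∀ b ∈ B, |θ s b| < 1 / 10) ∧
        ∀ i ∈ C, ∀ j ∈ C, |θ s i - θ s j| < 1 / 100 from eventually_nhdsWithin_iff.mp hs
    refine Filter.Eventually.and ?_ ?_
    · rw [Filter.eventually_all_finset]
      intro b hb
      exact (hcont t ht b).abs.eventually_lt continuousWithinAt_const (h1 b hb)
    · rw [Filter.eventually_all_finset]
      intro i hi
      rw [Filter.eventually_all_finset]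
      intro j hj
      exact ((hcont t ht i).sub (hcont t ht j)).abs.eventually_lt continuousWithinAt_const (h2 i hi j hj)
  · intro t ht hs
    refine ⟨fun b hb => ?_, fun i hi j hj => ?_⟩
    · exact lim_le (g := fun s => |θ s b|) (hcont t ht.le b).abs ht fun s h h' => (hs s h h').1 b hb
    · exact lim_le (g := fun s => |θ s i - θ s j|) ((hcont t ht.le i).sub (hcont t ht.le j)).abs ht
        fun s h h' => (hs s h h').2 i hi j hj
  · intro t h
    exact ⟨fun b hb => (h.1 b hb).le, fun i hi j hj => (h.2 i hi j hj).le⟩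
  · rw [h0]
    refine ⟨fun b _ => ?_, fun i _ j _ => ?_⟩ <;> simp <;> norm_num
  · intro T hT hP
    refine ⟨part_B hN hsol h0 hBc hωB hT (fun s hs => (hP s hs).1), ?_⟩
    exact part_C hN hsol h0 hBC hBc hCc hωC hT (fun s hs => (hP s hs).1) (fun s hs => (hP s hs).2)

theorem advance (hN : 0 < N) (hsol : IsSolution ω (1 / 100) θ) (h0 : θ 0 = 0) {i : Fin N}
    (hi : |ω i - 1| ≤ 1 / 10 ^ 7) : ∀ t, 0 ≤ t → t / 2 ≤ θ t i := by
  intro T hT
  have := stay (f := fun t => t / 2 - θ t i)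
    (f' := fun t => 1 / 2 - (ω i - 1 / 100 * hh θ t * Real.sin (θ t i))) (U := 0) hT ?_ ?_ ?_
  · linarith
  · intro t ht
    exact ((hasDerivWithinAt_id t _).div_const 2).fun_sub (deriv_hh hsol ht i)
  · simp [h0]
  · intro t ht _
    obtain ⟨b0, b2⟩ := h_bounds hN (θ t)
    have h1 := Real.sin_le_one (θ t i)
    have h2 := (abs_le.mp hi).1
    have h3 : hh θ t * Real.sin (θ t i) ≤ 2 * 1 := by
      have h4 : hh θ t * Real.sin (θ t i) ≤ hh θ t * 1 := mul_le_mul_of_nonneg_left h1 b0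
      have h5 : hh θ t ≤ 2 := b2
      linarith
    show 1 / 2 - (ω i - 1 / 100 * hh θ t * Real.sin (θ t i)) < 0
    linarith

theorem not_slow (hN : 0 < N) (hsol : IsSolution ω (1 / 100) θ) (h0 : θ 0 = 0) {i : Fin N}
    (hi : |ω i - 1| ≤ 1 / 10 ^ 7) : ¬ Tendsto (fun t => θ t i / t) atTop (𝓝 0) := by
  intro h
  have h1 : ∀ᶠ t : ℝ in atTop, θ t i / t < 1 / 2 := h.eventually_lt_const (by norm_num)
  obtain ⟨t, ht1, ht2⟩ := (h1.and (eventually_gt_atTop 0)).exists
  have h2 := advance hN hsol h0 hi t ht2.le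
  rw [div_lt_iff₀ ht2] at ht1
  linarith

end dyn

theorem exists_solution {N : ℕ} (hN : 0 < N) (ω : Fin N → ℝ) (κ : ℝ) (Θ₀ : Fin N → ℝ) :
    ∃ θ, IsSolution ω κ θ ∧ θ 0 = Θ₀ := by
  have hN' : (0 : ℝ) < N := by exact_mod_cast hN
  set W : (Fin N → ℝ) → (Fin N → ℝ) := fun v i =>
    ω i - κ / N * (∑ j, (1 + Real.cos (v j))) * Real.sin (v i) with hW
  have hrew : ∀ v i, W v i = ω i - κ * ((∑ j, (1 + Real.cos (v j))) / N * Real.sin (v i)) := by
    intro v i; simp only [hW]; ring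
  have hLip : LipschitzWith (Real.toNNReal (|κ| * 3)) W := by
    refine LipschitzWith.of_dist_le_mul fun v v' => ?_
    rw [dist_pi_le_iff (by positivity)]
    intro i
    rw [Real.coe_toNNReal _ (by positivity), hrew, hrew, Real.dist_eq]
    set a := (∑ j, (1 + Real.cos (v j))) / (N : ℝ) with ha
    set a' := (∑ j, (1 + Real.cos (v' j))) / (N : ℝ) with ha'
    have hd : ∀ j, |v j - v' j| ≤ dist v v' := fun j => by
      rw [← Real.dist_eq]; exact dist_le_pi_dist v v' j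
    have h1 : |a - a'| ≤ dist v v' := by
      rw [ha, ha', ← sub_div, ← Finset.sum_sub_distrib, abs_div, abs_of_pos hN', div_le_iff₀ hN']
      refine (Finset.abs_sum_le_sum_abs _ _).trans ?_
      calc ∑ j, |1 + Real.cos (v j) - (1 + Real.cos (v' j))| ≤ ∑ j : Fin N, dist v v' := by
            refine Finset.sum_le_sum fun j _ => ?_
            have e : 1 + Real.cos (v j) - (1 + Real.cos (v' j)) = Real.cos (v j) - Real.cos (v' j) := by ring
            rw [e]
            exact (Real.abs_cos_sub_cos_le _ _).trans (hd j)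
        _ = dist v v' * N := by simp [mul_comm]
    have h2 : |Real.sin (v i) - Real.sin (v' i)| ≤ dist v v' :=
      (Real.abs_sin_sub_sin_le _ _).trans (hd i)
    obtain ⟨b0, b2⟩ := h_bounds hN v'
    have e : ω i - κ * (a * Real.sin (v i)) - (ω i - κ * (a' * Real.sin (v' i))) =
        -(κ * ((a - a') * Real.sin (v i) + a' * (Real.sin (v i) - Real.sin (v' i)))) := by ring
    rw [e, abs_neg, abs_mul, mul_assoc]
    refine mul_le_mul_of_nonneg_left ?_ (abs_nonneg _)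
    refine (abs_add_le _ _).trans ?_
    rw [abs_mul, abs_mul, abs_of_nonneg (show 0 ≤ a' from b0)]
    have h3 : |a - a'| * |Real.sin (v i)| ≤ dist v v' * 1 :=
      mul_le_mul h1 (Real.abs_sin_le_one _) (abs_nonneg _) dist_nonneg
    have h4 : a' * |Real.sin (v i) - Real.sin (v' i)| ≤ 2 * dist v v' :=
      mul_le_mul b2 h2 (abs_nonneg _) (by norm_num)
    linarith
  have hbd : ∀ v, ‖W v‖ ≤ (Real.toNNReal (‖ω‖ + |κ| * 2) : ℝ) := by
    intro v
    rw [Real.coe_toNNReal _ (by positivity), pi_norm_le_iff_of_nonneg (by positivity)]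
    intro i
    rw [hrew, Real.norm_eq_abs]
    obtain ⟨b0, b2⟩ := h_bounds hN v
    refine (abs_sub _ _).trans ?_
    apply add_le_add
    · exact norm_le_pi_norm ω i
    · rw [abs_mul, abs_mul, abs_of_nonneg b0]
      refine mul_le_mul_of_nonneg_left ?_ (abs_nonneg _)
      have := mul_le_mul b2 (Real.abs_sin_le_one (v i)) (abs_nonneg _) (by norm_num)
      linarith
  obtain ⟨θ, h1, h2⟩ := Pool.Agent.H839R2.Ode.exists_global_solution W _ _ hLip hbd Θ₀
  exact ⟨θ, fun t _ i => (hasDerivAt_pi.mp (h2 t) i).hasDerivWithinAt, h1⟩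

end Pool.Agent.X98.Winfree
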